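import Pool.Agent.W787.KG.Defs

/-!
# Project KG (MP_e522c7_an): convolution inequality for the product weight
-/

set_option autoImplicit false

open MeasureTheory Set Metric Filter Topology Real

namespace Pool.Agent.W589.KG

open Pool.Agent.W787.KG

theorem Wg_eq (p : ℕ) (σ L : ℝ) (ξ : E) : Wg p σ L ξ =
    (1 / (1 + σ * |ξ 0|) ^ p) * (1 / (1 + σ * |ξ 1|) ^ p) * (1 / (1 + L * |ξ 2|) ^ p) := by
  unfold Wg
  rw [mul_pow, mul_pow, one_div_mul_one_div, one_div_mul_one_div]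

theorem Wg_nonneg (p : ℕ) (σ L : ℝ) (ξ : E) (hσ : 0 < σ) (hL : 0 < L) : 0 ≤ Wg p σ L ξ := by
  unfold Wg
  positivity

theorem sqrt_mul_le (η : E) : Real.sqrt |η 0| * Real.sqrt |η 1| ≤ ‖η‖ := by
  have h1 : ‖η‖ ^ 2 = (η 0) ^ 2 + (η 1) ^ 2 + (η 2) ^ 2 := by
    rw [EuclideanSpace.norm_sq_eq, Fin.sum_univ_three]
    simp only [Real.norm_eq_abs, sq_abs]
  rw [← Real.sqrt_mul (abs_nonneg _)]
  apply Real.sqrt_le_iff.2
  refine ⟨norm_nonneg _, ?_⟩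
  rw [h1]
  have h2 := sq_nonneg (|η 0| - |η 1|)
  have h3 : |η 0| ^ 2 = (η 0) ^ 2 := sq_abs _
  have h4 : |η 1| ^ 2 = (η 1) ^ 2 := sq_abs _
  nlinarith [sq_nonneg (η 0), sq_nonneg (η 1), sq_nonneg (η 2)]

theorem ae_coord (i : Fin 3) : ∀ᵐ η : E, η i ≠ 0 := by
  set s : Submodule ℝ E := LinearMap.ker ((EuclideanSpace.proj i : E →L[ℝ] ℝ) : E →ₗ[ℝ] ℝ) with hs
  have hne : s ≠ ⊤ := by
    intro h
    have h1 : (EuclideanSpace.single i (1 : ℝ) : E) ∈ s := by rw [h]; trivial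
    rw [hs, LinearMap.mem_ker] at h1
    have h2 : (EuclideanSpace.single i (1 : ℝ) : E) i = 0 := h1
    simp at h2
  have h0 : volume (s : Set E) = 0 := Measure.addHaar_submodule volume s hne
  have h1 : {η : E | ¬ (η i ≠ 0)} ⊆ (s : Set E) := by
    intro η hη
    have h2 : η i = 0 := not_not.1 hη
    exact h2
  exact measure_mono_null h1 h0

theorem pb (h1 : S_1A) (h2 : S_1B) (h3 : S_PR) : S_PB := by
  intro p hp
  obtain ⟨C1, hC1, H1⟩ := h1 p hp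
  obtain ⟨C2, hC2, H2⟩ := h2 p hp
  refine ⟨C1 ^ 2 * C2, by positivity, fun σ L ξ hσ hL => ?_⟩
  set F0 : ℝ → ℝ := fun z => 1 / Real.sqrt |z| * (1 / (1 + σ * |ξ 0 - z|) ^ p)
    * (1 / (1 + σ * |z|) ^ p) with hF0
  set F1 : ℝ → ℝ := fun z => 1 / Real.sqrt |z| * (1 / (1 + σ * |ξ 1 - z|) ^ p)
    * (1 / (1 + σ * |z|) ^ p) with hF1
  set F2 : ℝ → ℝ := fun z => (1 / (1 + L * |ξ 2 - z|) ^ p) * (1 / (1 + L * |z|) ^ p) with hF2
  obtain ⟨i0, b0⟩ := H1 σ (ξ 0) hσ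
  obtain ⟨i1, b1⟩ := H1 σ (ξ 1) hσ
  obtain ⟨i2, b2⟩ := H2 L (ξ 2) hL
  obtain ⟨iF, eF⟩ := h3.1 F0 F1 F2 i0 i1 i2
  have n0 : 0 ≤ ∫ z, F0 z := integral_nonneg fun z => by simp only [hF0]; positivity
  have n1 : 0 ≤ ∫ z, F1 z := integral_nonneg fun z => by simp only [hF1]; positivity
  have n2 : 0 ≤ ∫ z, F2 z := integral_nonneg fun z => by simp only [hF2]; positivity
  have hnn : ∀ η : E, 0 ≤ 1 / ‖η‖ * Wg p σ L (ξ - η) * Wg p σ L η := fun η =>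
    mul_nonneg (mul_nonneg (by positivity) (Wg_nonneg _ _ _ _ hσ hL)) (Wg_nonneg _ _ _ _ hσ hL)
  have hae : ∀ᵐ η : E, 1 / ‖η‖ * Wg p σ L (ξ - η) * Wg p σ L η ≤
      F0 (η 0) * F1 (η 1) * F2 (η 2) := by
    filter_upwards [ae_coord 0, ae_coord 1] with η e0 e1
    have hs0 : 0 < Real.sqrt |η 0| := Real.sqrt_pos.2 (abs_pos.2 e0)
    have hs1 : 0 < Real.sqrt |η 1| := Real.sqrt_pos.2 (abs_pos.2 e1)
    have hle : 1 / ‖η‖ ≤ 1 / Real.sqrt |η 0| * (1 / Real.sqrt |η 1|) := by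
      rw [one_div_mul_one_div]
      exact one_div_le_one_div_of_le (mul_pos hs0 hs1) (sqrt_mul_le η)
    have hw := Wg_nonneg p σ L (ξ - η) hσ hL
    have hw' := Wg_nonneg p σ L η hσ hL
    calc 1 / ‖η‖ * Wg p σ L (ξ - η) * Wg p σ L η
        ≤ (1 / Real.sqrt |η 0| * (1 / Real.sqrt |η 1|)) * Wg p σ L (ξ - η) * Wg p σ L η := by
          gcongr
      _ = F0 (η 0) * F1 (η 1) * F2 (η 2) := by
          rw [Wg_eq, Wg_eq, hF0, hF1, hF2]
          simp only [PiLp.sub_apply]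
          ring
  have hmeas : Measurable (fun η : E => 1 / ‖η‖ * Wg p σ L (ξ - η) * Wg p σ L η) := by
    have hW : Measurable (Wg p σ L) := by
      unfold Wg
      fun_prop
    exact ((measurable_norm.const_div 1).mul (hW.comp (measurable_const.sub measurable_id))).mul hW
  have hint : Integrable (fun η : E => 1 / ‖η‖ * Wg p σ L (ξ - η) * Wg p σ L η) := by
    refine iF.mono' hmeas.aestronglyMeasurable ?_
    filter_upwards [hae] with η hη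
    rw [Real.norm_of_nonneg (hnn η)]
    exact hη
  refine ⟨hint, ?_⟩
  have hss : Real.sqrt σ * Real.sqrt σ = σ := Real.mul_self_sqrt hσ.le
  have hs : 0 < Real.sqrt σ := Real.sqrt_pos.2 hσ
  calc ∫ η : E, 1 / ‖η‖ * Wg p σ L (ξ - η) * Wg p σ L η
      ≤ ∫ η : E, F0 (η 0) * F1 (η 1) * F2 (η 2) := integral_mono_ae hint iF hae
    _ = (∫ z, F0 z) * (∫ z, F1 z) * (∫ z, F2 z) := eF
    _ ≤ (C1 / Real.sqrt σ * (1 / (1 + σ * |ξ 0|) ^ p)) *
        (C1 / Real.sqrt σ * (1 / (1 + σ * |ξ 1|) ^ p)) *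
        (C2 / L * (1 / (1 + L * |ξ 2|) ^ p)) := by
        have hp0 : 0 ≤ C1 / Real.sqrt σ * (1 / (1 + σ * |ξ 0|) ^ p) := by positivity
        have hp1 : 0 ≤ C1 / Real.sqrt σ * (1 / (1 + σ * |ξ 1|) ^ p) := by positivity
        exact mul_le_mul (mul_le_mul b0 b1 n1 hp0) b2 n2 (mul_nonneg hp0 hp1)
    _ = C1 ^ 2 * C2 / (σ * L) * Wg p σ L ξ := by
        rw [Wg_eq]
        have : C1 ^ 2 * C2 / (σ * L) = (C1 / Real.sqrt σ) * (C1 / Real.sqrt σ) * (C2 / L) := by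
          rw [div_mul_div_comm, hss]
          field_simp
        rw [this]
        ring

end Pool.Agent.W589.KG
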